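import Mathlib
set_option autoImplicit false
open Set Filter Topology

namespace Pool.Agent.Helper13.PMV

/-- the plane -/
abbrev E := EuclideanSpace ℝ (Fin 2)
/-- the sphere, used as a one-point compactification of the plane -/
abbrev S := Metric.sphere (0 : EuclideanSpace ℝ (Fin 3)) 1

instance factFinrank : Fact (Module.finrank ℝ (EuclideanSpace ℝ (Fin 3)) = 2 + 1) := ⟨by simp⟩

/-- north pole -/
noncomputable def north : S := ⟨EuclideanSpace.single 0 1, by simp⟩

/-- stereographic parametrisation of the sphere minus a point -/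
noncomputable def e : E → S := (stereographic' 2 north).symm

lemma e_openEmb : IsOpenEmbedding e := by
  have h := (stereographic' 2 north).symm.isOpenEmbedding (by simp)
  exact h

lemma e_ne (x : E) : e x ≠ north := by
  have h := (stereographic' 2 north).symm.map_source (x := x) (by simp)
  have h2 : (stereographic' 2 north).symm x ≠ north := by simpa using h
  exact h2

lemma range_e : range e = {north}ᶜ := by
  ext y
  constructor
  · rintro ⟨x, rfl⟩; exact e_ne x
  · intro hy
    refine ⟨stereographic' 2 north y, ?_⟩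
    exact (stereographic' 2 north).left_inv (by simpa using hy)

lemma rank3 : 1 < Module.rank ℝ (EuclideanSpace ℝ (Fin 3)) := by
  rw [← Module.finrank_eq_rank]
  have : Module.finrank ℝ (EuclideanSpace ℝ (Fin 3)) = 3 := by simp
  rw [this]
  norm_cast

instance connS : ConnectedSpace S :=
  isConnected_iff_connectedSpace.mp (isConnected_sphere rank3 _ (by norm_num))

instance nontrivS : Nontrivial S := ⟨⟨e 0, north, e_ne 0⟩⟩

lemma e_dense : DenseRange e := by
  rw [DenseRange, range_e]
  exact dense_compl_singleton _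

variable {ι : Type}

/-- the underlying set of the manifold -/
def M (_f : ι → ℝ → E) (_r : ι → ℝ → ℝ) : Type := (S × ℝ) ⊕ (ι × E)

variable (f : ι → ℝ → E) (r : ι → ℝ → ℝ)

/-- the cylinder inside the manifold -/
def inlM : S × ℝ → M f r := Sum.inl

/-- transition map -/
noncomputable def T (i : ι) (p : E × ℝ) : E × ℝ :=
  (f i (1/|p.2|) + r i (1/|p.2|) • p.1, 1/p.2)

/-- inverse transition map -/
noncomputable def T' (i : ι) (p : E × ℝ) : E × ℝ :=
  ((r i |p.2|)⁻¹ • (p.1 - f i |p.2|), 1/p.2)

open Classical in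
/-- the chart at the ideal points of horn `i` -/
noncomputable def j (i : ι) (p : E × ℝ) : M f r :=
  if p.2 = 0 then Sum.inr (i, p.1) else Sum.inl (e (T f r i p).1, (T f r i p).2)

instance topM : TopologicalSpace (M f r) where
  IsOpen A := IsOpen (inlM f r ⁻¹' A) ∧ ∀ i, IsOpen (j f r i ⁻¹' A)
  isOpen_univ := by simp
  isOpen_inter A B hA hB := ⟨hA.1.inter hB.1, fun i => (hA.2 i).inter (hB.2 i)⟩
  isOpen_sUnion A h := by
    refine ⟨?_, fun i => ?_⟩
    · rw [preimage_sUnion]
      exact isOpen_biUnion fun t ht => (h t ht).1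
    · rw [preimage_sUnion]
      exact isOpen_biUnion fun t ht => (h t ht).2 i

lemma isOpen_M_iff (A : Set (M f r)) :
    IsOpen A ↔ IsOpen (inlM f r ⁻¹' A) ∧ ∀ i, IsOpen (j f r i ⁻¹' A) := Iff.rfl

lemma j_zero (i : ι) (c : E) : j f r i (c, 0) = Sum.inr (i, c) := if_pos rfl

lemma j_ne (i : ι) (p : E × ℝ) (hp : p.2 ≠ 0) :
    j f r i p = inlM f r (e (T f r i p).1, (T f r i p).2) := if_neg hp

section
variable {f r}

lemma j_at (i : ι) (c : E) (t : ℝ) (ht : t ≠ 0) (x : E) (hx : f i |t| + r i |t| • c = x) :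
    j f r i (c, 1/t) = inlM f r (e x, t) := by
  rw [j_ne f r i _ (by simp [ht])]
  have habs : 1/|1/t| = |t| := by rw [abs_div, abs_one, one_div_one_div]
  simp only [T, habs, one_div_one_div, hx]

variable (hf : ∀ i, Continuous (f i)) (hr : ∀ i, Continuous (r i)) (hpos : ∀ i t, 0 < r i t)

include hf hr in
lemma T_cont (i : ι) : ContinuousOn (T f r i) {p | p.2 ≠ 0} := by
  unfold T
  have h1 : ContinuousOn (fun p : E × ℝ => 1/|p.2|) {p | p.2 ≠ 0} := by
    apply ContinuousOn.div continuousOn_const (continuous_snd.abs.continuousOn)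
    intro p hp; simpa using hp
  have h2 : ContinuousOn (fun p : E × ℝ => 1/p.2) {p | p.2 ≠ 0} := by
    apply ContinuousOn.div continuousOn_const (continuous_snd.continuousOn)
    intro p hp; simpa using hp
  refine ContinuousOn.prodMk ?_ h2
  refine ContinuousOn.add ((hf i).comp_continuousOn h1) ?_
  exact ContinuousOn.smul ((hr i).comp_continuousOn h1) continuous_fst.continuousOn

include hf hr hpos in
lemma T'_cont (i : ι) : ContinuousOn (T' f r i) {p | p.2 ≠ 0} := by
  unfold T'
  have h2 : ContinuousOn (fun p : E × ℝ => 1/p.2) {p | p.2 ≠ 0} := by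
    apply ContinuousOn.div continuousOn_const (continuous_snd.continuousOn)
    intro p hp; simpa using hp
  refine ContinuousOn.prodMk ?_ h2
  apply Continuous.continuousOn
  have h3 : Continuous fun p : E × ℝ => (r i |p.2|)⁻¹ :=
    ((hr i).comp continuous_snd.abs).inv₀ (fun p => (hpos i _).ne')
  have h4 : Continuous fun p : E × ℝ => p.1 - f i |p.2| :=
    continuous_fst.sub ((hf i).comp continuous_snd.abs)
  exact h3.smul h4

include hpos in
lemma T'_T (i : ι) (p : E × ℝ) : T' f r i (T f r i p) = p := by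
  have h := (hpos i (1/|p.2|)).ne'
  have h2 : |1 / p.2| = 1/|p.2| := by rw [abs_div, abs_one]
  ext1
  · simp only [T, T', h2]
    rw [add_sub_cancel_left, smul_smul, inv_mul_cancel₀ h, one_smul]
  · simp [T, T']

include hpos in
lemma T_T' (i : ι) (p : E × ℝ) : T f r i (T' f r i p) = p := by
  have h := (hpos i |p.2|).ne'
  have h2 : 1/|1 / p.2| = |p.2| := by rw [abs_div, abs_one, one_div_one_div]
  ext1
  · simp only [T, T', h2]
    rw [smul_smul, mul_inv_cancel₀ h, one_smul, add_sub_cancel]
  · simp [T, T']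

lemma inlM_inj : Function.Injective (inlM f r) := Sum.inl_injective

include hpos in
lemma j_inj (i : ι) : Function.Injective (j f r i) := by
  intro p q h
  by_cases hp : p.2 = 0 <;> by_cases hq : q.2 = 0
  · simp only [j, hp, hq] at h
    have := Sum.inr_injective h
    simp only [Prod.mk.injEq, true_and] at this
    exact Prod.ext this (hp.trans hq.symm)
  · simp [j, hp, hq] at h
  · simp [j, hp, hq] at h
  · simp only [j, hp, hq] at h
    have := Sum.inl_injective h
    simp only [Prod.mk.injEq] at this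
    have h3 : T f r i p = T f r i q := Prod.ext (e_openEmb.injective this.1) this.2
    rw [← T'_T hpos i p, h3, T'_T hpos i q]

lemma isOpen_ne : IsOpen {p : E × ℝ | p.2 ≠ 0} := by
  exact isOpen_ne_fun continuous_snd continuous_const

include hf hr in
/-- preimage of an open subset of the cylinder under `j i` -/
lemma isOpen_pre_inl (i : ι) (U : Set (S × ℝ)) (hU : IsOpen U) :
    IsOpen (j f r i ⁻¹' (inlM f r '' U)) := by
  have h : j f r i ⁻¹' (inlM f r '' U) =
      {p : E × ℝ | p.2 ≠ 0} ∩ (T f r i ⁻¹' ((Prod.map e id) ⁻¹' U)) := by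
    ext p
    simp only [mem_preimage, mem_image, mem_inter_iff, mem_ofPred_eq]
    constructor
    · rintro ⟨u, hu, hup⟩
      have hp : p.2 ≠ 0 := by
        intro hp
        simp [j, hp, inlM] at hup
      refine ⟨hp, ?_⟩
      rw [j_ne f r i p hp] at hup
      have := inlM_inj hup
      rw [this] at hu
      exact hu
    · rintro ⟨hp, hu⟩
      exact ⟨_, hu, (j_ne f r i p hp).symm⟩
  rw [h]
  refine (T_cont hf hr i).isOpen_inter_preimage isOpen_ne ?_
  exact hU.preimage (e_openEmb.continuous.prodMap continuous_id)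

include hf hr hpos in
/-- preimage in the cylinder of an open subset of the chart `j i` -/
lemma isOpen_pre_j (i : ι) (U : Set (E × ℝ)) (hU : IsOpen U) :
    IsOpen (inlM f r ⁻¹' (j f r i '' U)) := by
  have h : inlM f r ⁻¹' (j f r i '' U) =
      (Prod.map e id) '' ({p : E × ℝ | p.2 ≠ 0} ∩ (T' f r i ⁻¹' U)) := by
    ext x
    simp only [mem_preimage, mem_image, mem_inter_iff, mem_ofPred_eq]
    constructor
    · rintro ⟨p, hp, hpx⟩
      have hp0 : p.2 ≠ 0 := by
        intro hp
        simp [j, hp, inlM] at hpx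
      refine ⟨T f r i p, ⟨?_, ?_⟩, ?_⟩
      · simp [T, hp0]
      · rw [T'_T hpos]; exact hp
      · rw [j_ne f r i p hp0] at hpx
        have := inlM_inj hpx
        rw [← this]
        rfl
    · rintro ⟨p, ⟨hp0, hp⟩, rfl⟩
      refine ⟨T' f r i p, hp, ?_⟩
      rw [j_ne f r i _ (by simp [T', hp0]), T_T' hpos]
      rfl
  rw [h]
  refine (e_openEmb.prodMap IsOpenEmbedding.id).isOpenMap _ ?_
  exact (T'_cont hf hr hpos i).isOpen_inter_preimage isOpen_ne hU

include hf hr in
lemma inlM_openMap : IsOpenMap (inlM f r) := by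
  intro U hU
  refine ⟨?_, fun i => isOpen_pre_inl hf hr i U hU⟩
  rwa [preimage_image_eq _ inlM_inj]

lemma inlM_cont : Continuous (inlM f r) := by
  rw [continuous_def]
  exact fun U hU => hU.1

lemma j_cont (i : ι) : Continuous (j f r i) := by
  rw [continuous_def]
  exact fun U hU => hU.2 i

include hf hr hpos in
lemma j_openMap (i : ι) : IsOpenMap (j f r i) := by
  intro U hU
  refine ⟨isOpen_pre_j hf hr hpos i U hU, fun k => ?_⟩
  by_cases hk : k = i
  · subst hk
    rwa [preimage_image_eq _ (j_inj hpos k)]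
  · have h : j f r k ⁻¹' (j f r i '' U) =
        j f r k ⁻¹' (inlM f r '' (inlM f r ⁻¹' (j f r i '' U))) := by
      ext p
      simp only [mem_preimage, mem_image]
      constructor
      · rintro ⟨q, hq, hqp⟩
        by_cases hp : p.2 = 0
        · exfalso
          by_cases hq0 : q.2 = 0
          · simp only [j, hq0, hp] at hqp
            have := Sum.inr_injective hqp
            simp only [Prod.mk.injEq] at this
            exact hk this.1.symm
          · simp [j, hp, hq0] at hqp
        · rw [j_ne f r k p hp] at hqp ⊢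
          exact ⟨_, ⟨q, hq, hqp⟩, rfl⟩
      · rintro ⟨x, ⟨q, hq, hqx⟩, hx⟩
        exact ⟨q, hq, hqx.trans hx⟩
    rw [h]
    exact isOpen_pre_inl hf hr k _ (isOpen_pre_j hf hr hpos i U hU)

include hf hr in
lemma inlM_openEmb : IsOpenEmbedding (inlM f r) :=
  .of_continuous_injective_isOpenMap inlM_cont inlM_inj (inlM_openMap hf hr)

include hf hr hpos in
lemma j_openEmb (i : ι) : IsOpenEmbedding (j f r i) :=
  .of_continuous_injective_isOpenMap (j_cont i) (j_inj hpos i) (j_openMap hf hr hpos i)

lemma inlM_denseRange : DenseRange (inlM f r) := by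
  intro x
  rcases x with x | ⟨i, c⟩
  · exact subset_closure ⟨x, rfl⟩
  · have h0 : (Sum.inr (i, c) : M f r) = j f r i (c, 0) := (j_zero f r i c).symm
    rw [h0]
    have h1 : (c, (0:ℝ)) ∈ closure {p : E × ℝ | p.2 ≠ 0} := by
      have : Tendsto (fun n : ℕ => ((c, 1/((n:ℝ)+1)) : E × ℝ)) atTop (𝓝 (c, 0)) :=
        tendsto_const_nhds.prodMk_nhds tendsto_one_div_add_atTop_nhds_zero_nat
      refine mem_closure_of_tendsto this (Eventually.of_forall fun n => ?_)
      simp only [mem_ofPred_eq]
      positivity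
    have h2 := image_closure_subset_closure_image (j_cont (f := f) (r := r) i) ⟨_, h1, rfl⟩
    refine closure_mono ?_ h2
    rintro _ ⟨p, hp, rfl⟩
    rw [j_ne f r i p hp]
    exact ⟨_, rfl⟩

end

section main
variable {f r}
variable (hf : ∀ i, Continuous (f i)) (hr : ∀ i, Continuous (r i)) (hpos : ∀ i t, 0 < r i t)
  (hsep : ∀ i k, i ≠ k → ∀ C : ℝ, ∀ᶠ t in atTop, C * (r i t + r k t) < dist (f i t) (f k t))
  (hcap : ∀ W : ℕ → Set (E × ℝ), (∀ n, IsOpen (W n)) → (∀ n, (W n).Nonempty) →
      (∀ n, ∀ p ∈ W n, (n:ℝ) < p.2) →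
      ∃ i, ∃ C : ℝ, ∃ᶠ n in atTop, ∃ p ∈ W n, dist p.1 (f i p.2) ≤ C * r i p.2)

lemma connectedM : ConnectedSpace (M f r) := by
  have : PreconnectedSpace (M f r) := inlM_denseRange.preconnectedSpace inlM_cont
  exact { toNonempty := ⟨inlM f r (north, 0)⟩ }

lemma j_time (i : ι) (p : E × ℝ) (hp : p.2 ≠ 0) (x : S × ℝ) (h : j f r i p = inlM f r x) :
    x.2 = 1/p.2 := by
  rw [j_ne f r i p hp] at h
  have := inlM_inj h
  rw [← this]
  rfl

include hf hr hpos in
lemma sep_inr_inl (i : ι) (c : E) (x : S × ℝ) :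
    ∃ u v : Set (M f r), IsOpen u ∧ IsOpen v ∧ (Sum.inr (i, c) : M f r) ∈ u ∧
      (inlM f r x) ∈ v ∧ Disjoint u v := by
  refine ⟨j f r i '' {p | |p.2| * (|x.2| + 1) < 1}, inlM f r '' {y | |y.2| < |x.2| + 1}, ?_, ?_, ?_,
    ?_, ?_⟩
  · apply j_openMap hf hr hpos
    exact isOpen_lt (continuous_snd.abs.mul continuous_const) continuous_const
  · apply inlM_openMap hf hr
    exact isOpen_lt continuous_snd.abs continuous_const
  · refine ⟨(c, 0), by simp, j_zero f r i c⟩
  · exact ⟨x, by simp, rfl⟩
  · rw [Set.disjoint_left]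
    rintro _ ⟨p, hp, rfl⟩ ⟨y, hy, hyp⟩
    have hp0 : p.2 ≠ 0 := by
      intro hp
      simp [j, hp, inlM] at hyp
    have h := j_time i p hp0 y hyp.symm
    simp only [mem_ofPred_eq] at hp hy
    rw [h, abs_div, abs_one] at hy
    have hp1 : 0 < |p.2| := abs_pos.mpr hp0
    rw [div_lt_iff₀ hp1] at hy
    nlinarith

include hf hr hpos hsep in
lemma t2M : T2Space (M f r) := by
  refine ⟨fun x y hxy => ?_⟩
  rcases x with x | ⟨i, c⟩ <;> rcases y with y | ⟨k, d⟩
  · have hne : x ≠ y := by rintro rfl; exact hxy rfl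
    obtain ⟨u, v, hu, hv, hxu, hyv, huv⟩ := t2_separation hne
    refine ⟨inlM f r '' u, inlM f r '' v, inlM_openMap hf hr u hu, inlM_openMap hf hr v hv,
      ⟨x, hxu, rfl⟩, ⟨y, hyv, rfl⟩, ?_⟩
    exact (disjoint_image_iff inlM_inj).mpr huv
  · obtain ⟨u, v, hu, hv, h1, h2, h3⟩ := sep_inr_inl hf hr hpos k d x
    exact ⟨v, u, hv, hu, h2, h1, h3.symm⟩
  · exact sep_inr_inl hf hr hpos i c y
  · by_cases hik : i = k
    · subst hik
      have hne : (c, (0:ℝ)) ≠ (d, 0) := by
        intro h
        apply hxy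
        simp only [Prod.mk.injEq, and_true] at h
        rw [h]
      obtain ⟨u, v, hu, hv, hxu, hyv, huv⟩ := t2_separation hne
      refine ⟨j f r i '' u, j f r i '' v, j_openMap hf hr hpos i u hu, j_openMap hf hr hpos i v hv,
        ⟨_, hxu, j_zero f r i c⟩, ⟨_, hyv, j_zero f r i d⟩, ?_⟩
      exact (disjoint_image_iff (j_inj hpos i)).mpr huv
    · obtain ⟨N, hN⟩ := eventually_atTop.mp (hsep i k hik (‖c‖ + ‖d‖ + 1))
      set R := ‖c‖ + ‖d‖ + 1 with hR
      set B := |N| + 1 with hB
      have hBpos : 0 < B := by positivity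
      set W : Set (E × ℝ) := {p | ‖p.1‖ < R ∧ |p.2| * B < 1} with hW
      have hWo : IsOpen W :=
        (isOpen_lt continuous_fst.norm continuous_const).inter
          (isOpen_lt (continuous_snd.abs.mul continuous_const) continuous_const)
      refine ⟨j f r i '' W, j f r k '' W, j_openMap hf hr hpos i W hWo,
        j_openMap hf hr hpos k W hWo, ⟨(c, 0), ?_, j_zero f r i c⟩,
        ⟨(d, 0), ?_, j_zero f r k d⟩, ?_⟩
      · simp only [hW, mem_ofPred_eq, abs_zero, zero_mul, zero_lt_one, and_true]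
        have := norm_nonneg d
        rw [hR]; linarith
      · simp only [hW, mem_ofPred_eq, abs_zero, zero_mul, zero_lt_one, and_true]
        have := norm_nonneg c
        rw [hR]; linarith
      · rw [Set.disjoint_left]
        rintro _ ⟨p, hp, rfl⟩ ⟨q, hq, hqp⟩
        by_cases hp0 : p.2 = 0
        · by_cases hq0 : q.2 = 0
          · simp only [j, hq0, hp0] at hqp
            have := Sum.inr_injective hqp
            simp only [Prod.mk.injEq] at this
            exact hik this.1.symm
          · simp [j, hp0, hq0] at hqp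
        · by_cases hq0 : q.2 = 0
          · simp [j, hp0, hq0] at hqp
          · rw [j_ne f r i p hp0, j_ne f r k q hq0] at hqp
            have h1 := inlM_inj hqp
            simp only [Prod.mk.injEq] at h1
            have h2 := e_openEmb.injective h1.1
            have h3 := h1.2
            simp only [T] at h2 h3
            have h4 : q.2 = p.2 := by
              have := congrArg (fun x => 1 / x) h3
              simpa using this
            rw [h4] at h2
            have hpp : 0 < |p.2| := abs_pos.mpr hp0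
            have hbig : N ≤ 1/|p.2| := by
              rw [le_div_iff₀ hpp]
              have h5 := hp.2
              have h6 : N ≤ |N| := le_abs_self N
              rw [hB] at h5
              nlinarith
            have h7 := hN _ hbig
            have h8 : f i (1/|p.2|) - f k (1/|p.2|) =
                r k (1/|p.2|) • q.1 - r i (1/|p.2|) • p.1 := by
              have := h2
              rw [sub_eq_sub_iff_add_eq_add]
              rw [← this]
              abel
            rw [dist_eq_norm, h8] at h7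
            have h9 : ‖r k (1/|p.2|) • q.1 - r i (1/|p.2|) • p.1‖ ≤
                r k (1/|p.2|) * ‖q.1‖ + r i (1/|p.2|) * ‖p.1‖ := by
              refine (norm_sub_le _ _).trans ?_
              rw [norm_smul, norm_smul, Real.norm_of_nonneg (hpos k _).le,
                Real.norm_of_nonneg (hpos i _).le]
            have h10 := mul_le_mul_of_nonneg_left hq.1.le (hpos k (1/|p.2|)).le
            have h11 := mul_le_mul_of_nonneg_left hp.1.le (hpos i (1/|p.2|)).le
            nlinarith

/-- charts -/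
lemma exists_chart_of_emb {X Y : Type} [TopologicalSpace X] [TopologicalSpace Y] [Nonempty X]
    {g : X → Y} (hg : IsOpenEmbedding g) {F : Type} [TopologicalSpace F] (x : X)
    (φ : OpenPartialHomeomorph X F) (hx : x ∈ φ.source) :
    ∃ ψ : OpenPartialHomeomorph Y F, g x ∈ ψ.source := by
  refine ⟨(hg.toOpenPartialHomeomorph g).symm.trans φ, ?_⟩
  rw [OpenPartialHomeomorph.trans_source]
  refine ⟨?_, ?_⟩
  · simp
  · simp only [mem_preimage]
    have : (hg.toOpenPartialHomeomorph g).symm (g x) = x := by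
      exact (hg.toOpenPartialHomeomorph g).left_inv (by simp)
    rw [this]
    exact hx

include hf hr hpos in
lemma chartsM : ∃ n : ℕ, Nonempty (ChartedSpace (EuclideanSpace ℝ (Fin n)) (M f r)) := by
  refine ⟨Module.finrank ℝ (E × ℝ), ?_⟩
  have key : ∀ x : M f r, ∃ ψ : OpenPartialHomeomorph (M f r)
      (EuclideanSpace ℝ (Fin (Module.finrank ℝ (E × ℝ)))), x ∈ ψ.source := by
    intro x
    rcases x with x | ⟨i, c⟩
    · refine exists_chart_of_emb (inlM_openEmb hf hr) x
        (((chartAt E x.1).prod (OpenPartialHomeomorph.refl ℝ)).transHomeomorph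
          (toEuclidean (E := E × ℝ)).toHomeomorph) ?_
      simp
    · have h := exists_chart_of_emb (j_openEmb hf hr hpos i) (c, (0:ℝ))
        ((toEuclidean (E := E × ℝ)).toHomeomorph.toOpenPartialHomeomorph) (by simp)
      rw [j_zero] at h
      exact h
  choose ψ hψ using key
  exact ⟨{ atlas := range ψ
           chartAt := ψ
           mem_chart_source := hψ
           chart_mem_atlas := fun x => ⟨x, rfl⟩ }⟩

include hpos hcap in
lemma pseudocompactM (F : M f r → ℝ) (hF : Continuous F) : BddAbove (range F) := by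
  by_contra hb
  have hun : ∀ B : ℝ, ∃ x, B < F x := by
    intro B
    by_contra hB
    push Not at hB
    exact hb ⟨B, by rintro _ ⟨x, rfl⟩; exact hB x⟩
  -- unbounded at infinitely many times in the plane part
  have hun2 : ∀ n : ℕ, ∃ p : E × ℝ, (n:ℝ) < |p.2| ∧ (n:ℝ) < F (inlM f r (e p.1, p.2)) := by
    intro n
    have hK : IsCompact ((univ : Set S) ×ˢ (Icc (-(n:ℝ)) n)) := isCompact_univ.prod isCompact_Icc
    obtain ⟨B, hB⟩ := (hK.image (hF.comp inlM_cont)).bddAbove
    have ho : IsOpen {x : M f r | max B n < F x} := isOpen_lt continuous_const hF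
    obtain ⟨x0, hx0⟩ := hun (max B n)
    obtain ⟨y, hy⟩ := (inlM_denseRange (f := f) (r := r)).exists_mem_open ho ⟨x0, hx0⟩
    have ho2 : IsOpen {y : S × ℝ | max B n < F (inlM f r y)} :=
      isOpen_lt continuous_const (hF.comp inlM_cont)
    have hd : DenseRange (Prod.map e (id : ℝ → ℝ)) := e_dense.prodMap denseRange_id
    obtain ⟨p, hp⟩ := hd.exists_mem_open ho2 ⟨y, hy⟩
    simp only [mem_ofPred_eq, Prod.map, id] at hp
    refine ⟨p, ?_, lt_of_le_of_lt (le_max_right _ _) hp⟩
    by_contra hlt
    push Not at hlt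
    have : F (inlM f r (e p.1, p.2)) ≤ B := by
      apply hB
      refine ⟨(e p.1, p.2), ⟨mem_univ _, abs_le.mp hlt⟩, rfl⟩
    exact absurd (lt_of_le_of_lt (le_max_left _ _) hp) (not_lt.mpr this)
  let W : ℕ → Set (E × ℝ) := fun n =>
    {p | (n:ℝ) < p.2 ∧ ((n:ℝ) < F (inlM f r (e p.1, p.2)) ∨ (n:ℝ) < F (inlM f r (e p.1, -p.2)))}
  have hc1 : Continuous fun p : E × ℝ => F (inlM f r (e p.1, p.2)) :=
    hF.comp (inlM_cont.comp ((e_openEmb.continuous.comp continuous_fst).prodMk continuous_snd))
  have hc2 : Continuous fun p : E × ℝ => F (inlM f r (e p.1, -p.2)) :=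
    hF.comp (inlM_cont.comp ((e_openEmb.continuous.comp continuous_fst).prodMk continuous_snd.neg))
  obtain ⟨i, C, hfreq⟩ := hcap W
    (fun n => (isOpen_lt continuous_const continuous_snd).inter
      ((isOpen_lt continuous_const hc1).union (isOpen_lt continuous_const hc2)))
    (by
      intro n
      obtain ⟨p, hp1, hp2⟩ := hun2 n
      refine ⟨(p.1, |p.2|), hp1, ?_⟩
      rcases abs_choice p.2 with h | h
      · left; simp only [h]; exact hp2
      · right; simp only [h, neg_neg]; exact hp2)
    (fun n p hp => hp.1)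
  have hK : IsCompact ((Metric.closedBall (0:E) |C|) ×ˢ (Icc (-(1:ℝ)) 1)) :=
    (isCompact_closedBall _ _).prod isCompact_Icc
  obtain ⟨B, hB0⟩ := (hK.image (hF.comp (j_cont i))).bddAbove
  have hB : ∀ (c : E) (s : ℝ), c ∈ Metric.closedBall (0:E) |C| → s ∈ Icc (-(1:ℝ)) 1 →
      F (j f r i (c, s)) ≤ B := fun c s hc hs =>
    hB0 (mem_image_of_mem (F ∘ j f r i) (mk_mem_prod hc hs))
  obtain ⟨N, hN⟩ := exists_nat_gt (max B 1)
  obtain ⟨n, ⟨p, hpW, hpd⟩, hn⟩ := (hfreq.and_eventually (eventually_ge_atTop N)).exists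
  have hnN : (N:ℝ) ≤ n := by exact_mod_cast hn
  have hp2 : 1 < p.2 := lt_of_lt_of_le (lt_of_le_of_lt (le_max_right B 1) hN) (hnN.trans hpW.1.le)
  have hp0 : 0 < p.2 := by linarith
  obtain ⟨c, hcn, hx⟩ : ∃ c : E, c ∈ Metric.closedBall (0:E) |C| ∧
      f i p.2 + r i p.2 • c = p.1 := by
    refine ⟨(r i p.2)⁻¹ • (p.1 - f i p.2), ?_, ?_⟩
    · rw [mem_closedBall_zero_iff, norm_smul, norm_inv, Real.norm_of_nonneg (hpos i _).le,
        inv_mul_le_iff₀ (hpos i _), ← dist_eq_norm]
      refine hpd.trans ?_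
      rw [mul_comm]
      exact mul_le_mul_of_nonneg_left (le_abs_self C) (hpos i _).le
    · rw [smul_smul, mul_inv_cancel₀ (hpos i _).ne', one_smul, add_sub_cancel]
  have hinv : 1 / p.2 ∈ Icc (-(1:ℝ)) 1 := by
    constructor
    · have : 0 < 1/p.2 := by positivity
      linarith
    · rw [div_le_one hp0]; exact hp2.le
  have hBn : B < n := lt_of_le_of_lt (le_max_left B 1) (hN.trans_le hnN)
  have habs : |p.2| = p.2 := abs_of_pos hp0
  rcases hpW.2 with h | h
  · have h1 : j f r i (c, 1/p.2) = inlM f r (e p.1, p.2) :=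
      j_at i c p.2 hp0.ne' p.1 (by rw [habs]; exact hx)
    have h2 : F (j f r i (c, 1/p.2)) ≤ B := hB c _ hcn hinv
    rw [h1] at h2
    linarith
  · have h1 : j f r i (c, 1/(-p.2)) = inlM f r (e p.1, -p.2) :=
      j_at i c (-p.2) (neg_ne_zero.mpr hp0.ne') p.1 (by rw [abs_neg, habs]; exact hx)
    have h2 : F (j f r i (c, 1/(-p.2))) ≤ B := by
      refine hB c _ hcn ?_
      rw [one_div_neg_eq_neg_one_div]
      simp only [mem_Icc] at hinv ⊢
      constructor <;> linarith
    rw [h1] at h2
    linarith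

include hf hr hpos in
lemma seqM : ∃ u : ℕ → M f r, ∀ x : M f r, ¬ MapClusterPt x Filter.atTop u := by
  refine ⟨fun n => inlM f r (north, n), fun x hx => ?_⟩
  rw [mapClusterPt_iff_frequently] at hx
  rcases x with x | ⟨i, c⟩
  · have ho : IsOpen (inlM f r '' {y | y.2 < x.2 + 1}) := by
      apply inlM_openMap hf hr
      exact isOpen_lt continuous_snd continuous_const
    have h1 := hx _ (ho.mem_nhds ⟨x, by simp, rfl⟩)
    obtain ⟨N, hN⟩ := exists_nat_gt (x.2 + 1)
    obtain ⟨n, ⟨y, hy, hyn⟩, hn⟩ := (h1.and_eventually (eventually_ge_atTop N)).exists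
    have h2 := inlM_inj hyn
    rw [h2] at hy
    simp only [mem_ofPred_eq] at hy
    have hnN : (N:ℝ) ≤ n := by exact_mod_cast hn
    linarith
  · have ho : IsOpen (range (j f r i)) := (j_openEmb hf hr hpos i).isOpen_range
    have h1 := hx _ (ho.mem_nhds ⟨(c, 0), j_zero f r i c⟩)
    obtain ⟨n, ⟨p, hp⟩⟩ := h1.exists
    have hp0 : p.2 ≠ 0 := by
      intro hp'
      simp [j, hp', inlM] at hp
    rw [j_ne f r i p hp0] at hp
    have h2 := inlM_inj hp
    simp only [Prod.mk.injEq] at h2
    exact e_ne _ h2.1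

include hf hr hpos hsep hcap in
theorem manifold_of_horns_raw :
    ∃ (X : Type) (_t : TopologicalSpace X),
      T2Space X ∧ ConnectedSpace X ∧
      (∃ n : ℕ, Nonempty (ChartedSpace (EuclideanSpace ℝ (Fin n)) X)) ∧
      (∀ f : X → ℝ, Continuous f → BddAbove (Set.range f)) ∧
      (∃ u : ℕ → X, ∀ x : X, ¬ MapClusterPt x Filter.atTop u) :=
  ⟨M f r, topM f r, t2M hf hr hpos hsep, connectedM, chartsM hf hr hpos,
    pseudocompactM hpos hcap, seqM hf hr hpos⟩

end main

end Pool.Agent.Helper13.PMV
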